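import Mathlib
import Pool.Agent.Q73.NL.F5
import Pool.Agent.Q73.NL.U

/-!
# Lower bound for the nodal length of eigenfunctions on surfaces (MP_a52643_an)

For every Riemannian surface (compact or not, any curvature), every sequence of eigenfunctions with
`λ_n → ∞` and every open subset `D`: `liminf λ_n^(-1/2) length(Z_n ∩ D) ≥ area(D) / π`. The random wave
conjecture predicts the limit `area(D) / (2 √2)`.

Proof. In small pieces the metric is almost flat. For solutions of `Δu + V u = 0` in a bounded plane open
set `Q` with `κ² ≤ V < 2 κ²` a zero in an open disc of radius `≤ π / (2 κ)` forces two zeros on the circle, so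
by Crofton's formula for circles the `t`-neighbourhood of the zero set `Z`, `t ≤ π / (2 κ)`, has the area
at most `2 t H¹(Z)`, up to the boundary; the test function `sin (min (κ δ) (π/2))`, `δ` the distance to `Z`
and to the boundary, then gives `H¹(Z) ≥ κ area(Q) / π - O(1)`. The pieces are the sets where
`a q^k < ρ < a q^(k+1)` in a disjoint family of discs that covers the surface up to a null set.
-/

set_option autoImplicit false
open MeasureTheory Filter Topology Complex
open scoped ContDiff ENNReal

namespace Pool.Agent.Results.MP_a52643_an.SharpNodalLength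

noncomputable section

universe u v

/-- the Laplacian of the plane `ℂ`: `∂_x² + ∂_y²` -/
def laplacian (f : ℂ → ℝ) (z : ℂ) : ℝ :=
  fderiv ℝ (fun w => fderiv ℝ f w 1) z 1 + fderiv ℝ (fun w => fderiv ℝ f w I) z I

/-- An isothermal atlas of a Riemannian surface `M`: the charts `φ i`, defined on the open sets `U i` of
the plane, are homeomorphisms onto open sets that cover `M`; the metric is `ρ i |dz|²` in the `i`-th
chart, that is, the area `area` of `M` is `∫ ρ i dx dy` and the length `len` (one-dimensional Hausdorff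
measure) is `∫ √(ρ i) dH¹`, for the Borel subsets of the chart. -/
structure IsothermalAtlas {M ι : Type*} [TopologicalSpace M] [MeasurableSpace M] (U : ι → Set ℂ)
    (φ : ι → ℂ → M) (ρ : ι → ℂ → ℝ) (area len : Measure M) : Prop where
  isOpen_domain : ∀ i, IsOpen (U i)
  continuous_chart : ∀ i, ContinuousOn (φ i) (U i)
  injective_chart : ∀ i, Set.InjOn (φ i) (U i)
  open_chart : ∀ i (S : Set ℂ), IsOpen S → S ⊆ U i → IsOpen (φ i '' S)
  cover : ∀ x : M, ∃ i, x ∈ φ i '' U i
  density_pos : ∀ i, ∀ z ∈ U i, 0 < ρ i z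
  density_continuous : ∀ i, ContinuousOn (ρ i) (U i)
  area_chart : ∀ i (S : Set ℂ), MeasurableSet S → S ⊆ U i →
    area (φ i '' S) = ∫⁻ z in S, ENNReal.ofReal (ρ i z)
  len_chart : ∀ i (S : Set ℂ), MeasurableSet S → S ⊆ U i →
    len (φ i '' S) = ∫⁻ z in S, ENNReal.ofReal (Real.sqrt (ρ i z)) ∂(μH[1] : Measure ℂ)

/-- `f` is a real smooth function on `M` with `Δ_g f + lam f = 0`: in the chart `φ i` the
Laplace-Beltrami operator is `Δ / ρ i` -/
def IsEigenfunction {M ι : Type*} (U : ι → Set ℂ) (φ : ι → ℂ → M) (ρ : ι → ℂ → ℝ) (lam : ℝ)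
    (f : M → ℝ) : Prop :=
  ∀ i, ContDiffOn ℝ ∞ (fun z => f (φ i z)) (U i) ∧
    ∀ z ∈ U i, laplacian (fun z => f (φ i z)) z + lam * ρ i z * f (φ i z) = 0

/-- **Lower bound for the nodal length.** (1) Let `M` be a Riemannian surface given by an isothermal
atlas, `f n` eigenfunctions with eigenvalues `lam n → ∞`. For every open subset `D` of `M`:
`liminf (lam n)^(-1/2) length(Z(f n) ∩ D) ≥ area(D) / π`. (2) The case of the hyperbolic plane
`{0 < Im z}`, `|dz|² / y²`, in coordinates: `F` is an open set, for instance the interior of a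
fundamental domain of a Fuchsian group, and `f n` satisfies `y² Δf + lam n f = 0`. -/
theorem result :
    (∀ (M : Type u) (ι : Type v) [TopologicalSpace M] [T2Space M] [SecondCountableTopology M]
      [MeasurableSpace M] [BorelSpace M] (U : ι → Set ℂ) (φ : ι → ℂ → M) (ρ : ι → ℂ → ℝ)
      (area len : Measure M), IsothermalAtlas U φ ρ area len →
      ∀ (lam : ℕ → ℝ) (f : ℕ → M → ℝ), Tendsto lam atTop atTop →
        (∀ n, IsEigenfunction U φ ρ (lam n) (f n)) → ∀ D : Set M, IsOpen D →
        ENNReal.ofReal (1 / Real.pi) * area D ≤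
          liminf (fun n => len {x | x ∈ D ∧ f n x = 0} / ENNReal.ofReal (Real.sqrt (lam n))) atTop) ∧
    (∀ (F : Set ℂ) (lam : ℕ → ℝ) (f : ℕ → ℂ → ℝ), IsOpen F → F ⊆ {z | 0 < z.im} →
      Tendsto lam atTop atTop →
      (∀ n, ContDiffOn ℝ ∞ (f n) F ∧ ∀ z ∈ F, z.im ^ 2 * laplacian (f n) z + lam n * f n z = 0) →
      ENNReal.ofReal (1 / Real.pi) * ∫⁻ z in F, ENNReal.ofReal (1 / z.im ^ 2) ≤
        liminf (fun n => (∫⁻ z in {z | z ∈ F ∧ f n z = 0}, ENNReal.ofReal (1 / z.im)
          ∂(μH[1] : Measure ℂ)) / ENNReal.ofReal (Real.sqrt (lam n))) atTop) := by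
  have hU : Pool.Agent.Q73.NL.U3 := Pool.Agent.Q73.NL.u3
  constructor
  · intro M ι _ _ _ _ _ U φ ρ area len h lam f hl hf D hD
    have hA : Pool.Agent.Q73.NL.Atl U φ ρ area len :=
      ⟨h.isOpen_domain, h.continuous_chart, h.injective_chart, h.open_chart, h.cover, h.density_pos,
        h.density_continuous, h.area_chart, h.len_chart⟩
    exact Pool.Agent.Q73.NL.surface hU hA hl (fun n i => ⟨(hf n i).1, (hf n i).2⟩) hD
  · intro F lam f hF hFH hl hf
    have hpos : ∀ z ∈ F, 0 < z.im := fun z hz => hFH hz
    have h1 := Pool.Agent.Q73.NL.surf hU (U := F) (ρ := fun z => 1 / z.im ^ 2) (lam := lam) (u := f) hF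
      (fun z hz => by have := hpos z hz; positivity)
      (continuousOn_const.div (Complex.continuous_im.pow 2).continuousOn
        (fun z hz => (pow_pos (hpos z hz) 2).ne')) hl
      (fun n => ⟨(hf n).1, fun z hz => by
        have h2 := (hf n).2 z hz
        have h3 := hpos z hz
        have h4 : Pool.Agent.Q73.NL.lap (f n) z = laplacian (f n) z := rfl
        rw [h4]
        field_simp
        linarith⟩)
    refine h1.trans (le_of_eq ?_)
    congr 1
    funext n
    unfold Pool.Agent.Q73.NL.nl
    congr 1
    refine setLIntegral_congr_fun ?_ fun z hz => ?_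
    · exact Pool.Agent.Q73.NL.nod_meas (V := fun z => lam n * (1 / z.im ^ 2)) hF
        ⟨(hf n).1, fun z hz => by
          have h2 := (hf n).2 z hz
          have h3 := hpos z hz
          have h4 : Pool.Agent.Q73.NL.lap (f n) z = laplacian (f n) z := rfl
          rw [h4]
          field_simp
          linarith⟩
    · have h3 := hpos z hz.1
      simp only
      rw [Real.sqrt_div zero_le_one, Real.sqrt_one, Real.sqrt_sq h3.le]

end

end Pool.Agent.Results.MP_a52643_an.SharpNodalLength
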