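import Mathlib
import Pool.Agent.Q218.UB.P
import Pool.Agent.Q218.UB.Gd

/-!
# Level sets of eigenfunctions on surfaces: an almost sharp upper bound (MP_a52643_an)

Let `M` be a Riemannian surface (any curvature, compact or not) and `f_n` real eigenfunctions with eigenvalues
`λ_n → ∞`, locally bounded in `L²`. The theorem: for `a ≤ b` the integral of `|∇f_n|` over the part of a Borel
set `B` where `a ≤ f_n ≤ b`, divided by `√λ_n`, is asymptotically at most `(b - a) area(B) / 2`; and the length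
of the regular part of the level curve `{f_n = s}` in `B`, integrated over the levels `s ∈ [a, b]` and divided
by `√λ_n`, is asymptotically at most `(b - a) area(B) / 2`. Here `B` is contained in a compact set, or the area
of `B` is finite and the energy of `f_n` on `B` is `O(λ_n)`, for instance `B = M` for `L²`-normalised
eigenfunctions on a complete surface of finite area. The constant `1 / 2` cannot be replaced by a number
below `3 (1 + √3) / (2 π √7) = 0.493...`: this is shown by the plane eigenfunctions whose nodal lines are the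
sides of the triangles with the angles `30°, 60°, 90°` that tile the plane. The random wave conjecture predicts
the integral of `exp (-s² / (2 v)) / (2 √2)` over `[a, b]` in the place of `(b - a) / 2`, `v` the mean of `f_n²`.

Proof. In a chart, on a small disc, let `h_k = (λ_n^(-1/2) ∂_v)^k u_n`; up to lower order terms these functions
solve the same equation, and in the mean over a test function the shift by `λ_n^(-1/2) x` changes nothing
asymptotically. The energy identity gives `mean h_(k+1)² ≤ mean ρ h_k² + o(1)` on discs where `ρ` is nearly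
constant, so the Taylor sums `p(y) = ∑_{k ≤ N} (i y)^k / k! h_k` satisfy `mean |p(y)|² ≤ C e^{2|y|}`. For a real
`s` and `δ > 0` the second derivative of `φ(y) = mean (1/2) log (|p(y) - s|² + δ²)` is up to a small error the
mean of `2 δ² |∂_v p|² / (|p - s|² + δ²)²`, and `φ(H) - φ(0) ≤ H + C`. Integration over `s` and the limits
`δ → 0`, `H → ∞` give the bound `(b - a) / π` for `|∂_v u_n|`, and the mean over all directions `v` gives the one for
`|∇u_n|`. The length of the regular part of a level curve is at most the lower limit of the integrals of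
`|∇u_n|` over `|u_n - s| ≤ ε`, divided by `2 ε` (project NL of helper73).
-/

set_option autoImplicit false
open MeasureTheory Filter Topology
open scoped ContDiff ENNReal

namespace Pool.Agent.Results.MP_a52643_an.LevelSets

noncomputable section

universe u v

/-- the Laplacian of the plane `ℂ`: `∂_x² + ∂_y²` -/
def laplacian (f : ℂ → ℝ) (z : ℂ) : ℝ :=
  fderiv ℝ (fun w => fderiv ℝ f w 1) z 1 + fderiv ℝ (fun w => fderiv ℝ f w Complex.I) z Complex.I

/-- `|∇f|` in the plane -/
def gradNorm (f : ℂ → ℝ) (z : ℂ) : ℝ := √(fderiv ℝ f z 1 ^ 2 + fderiv ℝ f z Complex.I ^ 2)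

/-- An isothermal atlas of a Riemannian surface `M`: the charts `φ i`, defined on the open sets `U i` of
the plane, are homeomorphisms onto open sets that cover `M`; the metric is `ρ i |dz|²` in the `i`-th
chart, `ρ i` smooth, that is, the area `area` of `M` is `∫ ρ i dx dy` and the length `len` (one-dimensional
Hausdorff measure) is `∫ √(ρ i) dH¹`, for the Borel subsets of the chart. -/
structure IsothermalAtlas {M ι : Type*} [TopologicalSpace M] [MeasurableSpace M] (U : ι → Set ℂ)
    (φ : ι → ℂ → M) (ρ : ι → ℂ → ℝ) (area len : Measure M) : Prop where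
  isOpen_domain : ∀ i, IsOpen (U i)
  continuous_chart : ∀ i, ContinuousOn (φ i) (U i)
  injective_chart : ∀ i, Set.InjOn (φ i) (U i)
  open_chart : ∀ i (S : Set ℂ), IsOpen S → S ⊆ U i → IsOpen (φ i '' S)
  cover : ∀ x : M, ∃ i, x ∈ φ i '' U i
  density_pos : ∀ i, ∀ z ∈ U i, 0 < ρ i z
  density_smooth : ∀ i, ContDiffOn ℝ ∞ (ρ i) (U i)
  area_chart : ∀ i (S : Set ℂ), MeasurableSet S → S ⊆ U i →
    area (φ i '' S) = ∫⁻ z in S, ENNReal.ofReal (ρ i z)
  len_chart : ∀ i (S : Set ℂ), MeasurableSet S → S ⊆ U i →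
    len (φ i '' S) = ∫⁻ z in S, ENNReal.ofReal √(ρ i z) ∂(μH[1] : Measure ℂ)

/-- `f` is a real smooth function on `M` with `Δ_g f + lam f = 0`: in the chart `φ i` the
Laplace-Beltrami operator is `Δ / ρ i` -/
def IsEigenfunction {M ι : Type*} (U : ι → Set ℂ) (φ : ι → ℂ → M) (ρ : ι → ℂ → ℝ) (lam : ℝ)
    (f : M → ℝ) : Prop :=
  ∀ i, ContDiffOn ℝ ∞ (fun z => f (φ i z)) (U i) ∧
    ∀ z ∈ U i, laplacian (fun z => f (φ i z)) z + lam * ρ i z * f (φ i z) = 0

/-- `G` is the length of the gradient of `f` for the metric of `M`: `|∇f| = |∇(f ∘ φ i)| / √(ρ i)` -/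
def IsGradNorm {M ι : Type*} (U : ι → Set ℂ) (φ : ι → ℂ → M) (ρ : ι → ℂ → ℝ) (f G : M → ℝ) : Prop :=
  ∀ i, ∀ z ∈ U i, G (φ i z) = gradNorm (fun w => f (φ i w)) z / √(ρ i z)

/-- `f n` are real eigenfunctions with eigenvalues `lam n → ∞` on the surface `M`, `G n = |∇(f n)|`, and for
every compact `K ⊆ M` the integrals of `f_n²` over `K` are bounded for large `n` -/
structure EigenSequence {M ι : Type*} [TopologicalSpace M] [MeasurableSpace M] (U : ι → Set ℂ)
    (φ : ι → ℂ → M) (ρ : ι → ℂ → ℝ) (area len : Measure M) (lam : ℕ → ℝ) (f G : ℕ → M → ℝ) : Prop where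
  atlas : IsothermalAtlas U φ ρ area len
  tendsto : Tendsto lam atTop atTop
  eigen : ∀ n, IsEigenfunction U φ ρ (lam n) (f n)
  grad : ∀ n, IsGradNorm U φ ρ (f n) (G n)
  bounded : ∀ K : Set M, IsCompact K → ∃ C : ℝ, ∀ᶠ n in atTop,
    ∫⁻ x in K, ENNReal.ofReal (f n x ^ 2) ∂area ≤ ENNReal.ofReal C

/-- `B` lies in a compact set, or `B` has finite area and `∫_B |∇f_n|² ≤ C λ_n` for large `n` -/
def Controlled {M : Type*} [TopologicalSpace M] [MeasurableSpace M] (area : Measure M) (lam : ℕ → ℝ)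
    (G : ℕ → M → ℝ) (B : Set M) : Prop :=
  (∃ K : Set M, IsCompact K ∧ B ⊆ K) ∨
    (area B ≠ ⊤ ∧ ∃ C : ℝ, 0 ≤ C ∧ ∀ᶠ n in atTop,
      ∫⁻ x in B, ENNReal.ofReal (G n x ^ 2) ∂area ≤ ENNReal.ofReal (C * lam n))

/-- the integral of `G` over the part of `B` where `a ≤ f ≤ b` -/
def bandIntegral {M : Type*} [MeasurableSpace M] (area : Measure M) (f G : M → ℝ) (a b : ℝ)
    (B : Set M) : ℝ≥0∞ := ∫⁻ x in B ∩ {x | a ≤ f x ∧ f x ≤ b}, ENNReal.ofReal (G x) ∂area

/-- the wave `sin 5nx sin n√3y - sin 4nx sin 2n√3y + sin nx sin 3n√3y`; its nodal lines are the sides of the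
triangles with the angles `30°, 60°, 90°` that tile the plane -/
def triangleWave (n : ℝ) (z : ℂ) : ℝ :=
  Real.sin (5 * n * z.re) * Real.sin (n * (√3 * z.im)) -
    Real.sin (4 * n * z.re) * Real.sin (2 * n * (√3 * z.im)) +
    Real.sin (n * z.re) * Real.sin (3 * n * (√3 * z.im))

/-- the open rectangle `-π/2 < x < 3π/2`, `-π/2 < √3 y < 3π/2` -/
def rectangle : Set ℂ := {z | (-(Real.pi / 2) < z.re ∧ z.re < 3 * Real.pi / 2) ∧
  (-(Real.pi / 2) < √3 * z.im ∧ √3 * z.im < 3 * Real.pi / 2)}

lemma wave_eq (n : ℝ) : triangleWave n = Pool.Agent.Q218.UB.G2.wv n := by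
  funext z
  unfold triangleWave Pool.Agent.Q218.UB.G2.wv Pool.Agent.Q218.UB.G2.tm
  ring

lemma wave_le (n : ℝ) (z : ℂ) : triangleWave n z ^ 2 ≤ 9 := by
  have h : |triangleWave n z| ≤ 3 := by
    unfold triangleWave
    have p : ∀ x y : ℝ, |Real.sin x * Real.sin y| ≤ 1 := fun x y => by
      rw [abs_mul]
      exact mul_le_one₀ (Real.abs_sin_le_one x) (abs_nonneg _) (Real.abs_sin_le_one y)
    have h1 := abs_le.1 (p (5 * n * z.re) (n * (√3 * z.im)))
    have h2 := abs_le.1 (p (4 * n * z.re) (2 * n * (√3 * z.im)))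
    have h3 := abs_le.1 (p (n * z.re) (3 * n * (√3 * z.im)))
    rw [abs_le]
    constructor <;> linarith [h1.1, h1.2, h2.1, h2.2, h3.1, h3.2]
  have h2 := abs_le.1 h
  nlinarith [h2.1, h2.2]

/-- **Level sets: an almost sharp upper bound.** (1) Let `f_n` be eigenfunctions with `λ_n → ∞` on a
Riemannian surface, locally bounded in `L²`, and `B` a Borel set as above. For `a ≤ b` the limsup of
`λ_n^(-1/2) ∫_{B, a ≤ f_n ≤ b} |∇f_n|` is at most `(b - a) / 2` times the area of `B`, and there are measurable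
majorants `L_n (s)` of the lengths of the regular parts of the level curves `{f_n = s}` in `B` such that for all
`a ≤ b` the limsup of `λ_n^(-1/2) ∫_a^b L_n (s) ds` is at most `(b - a) / 2` times the area of `B`. (2) In the flat
plane `ℂ` the waves `triangleWave (n + 1)`, `λ_n = 28 (n + 1)²`, form such a sequence, the rectangle `R` is an
admissible set, and for each number `c < 3 (1 + √3) / (2 π √7)` there is `b > 0` such that
`λ_n^(-1/2) ∫_{R, -b ≤ f_n ≤ b} |∇f_n|` is at least `2 b c` times the area of `R` for all `n`. -/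
theorem result :
    (∀ (M : Type u) (ι : Type v) [TopologicalSpace M] [T2Space M] [SecondCountableTopology M]
      [MeasurableSpace M] [BorelSpace M] (U : ι → Set ℂ) (φ : ι → ℂ → M) (ρ : ι → ℂ → ℝ)
      (area len : Measure M) (lam : ℕ → ℝ) (f G : ℕ → M → ℝ), EigenSequence U φ ρ area len lam f G →
      ∀ B : Set M, MeasurableSet B → Controlled area lam G B →
        (∀ a b : ℝ, a ≤ b → limsup (fun n => bandIntegral area (f n) (G n) a b B /
          ENNReal.ofReal √(lam n)) atTop ≤ ENNReal.ofReal ((b - a) / 2) * area B) ∧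
        ∃ L : ℕ → ℝ → ℝ≥0∞, (∀ n, Measurable (L n)) ∧
          (∀ n s, len {x | x ∈ B ∧ f n x = s ∧ G n x ≠ 0} ≤ L n s) ∧
          ∀ a b : ℝ, a ≤ b →
            limsup (fun n => (∫⁻ s in Set.Icc a b, L n s) / ENNReal.ofReal √(lam n)) atTop ≤
              ENNReal.ofReal ((b - a) / 2) * area B) ∧
    EigenSequence (fun _ : Unit => Set.univ) (fun _ z => z) (fun _ _ => 1) (volume : Measure ℂ)
      (μH[1] : Measure ℂ) (fun n => 28 * ((n : ℝ) + 1) ^ 2) (fun n => triangleWave ((n : ℝ) + 1))
      (fun n => gradNorm (triangleWave ((n : ℝ) + 1))) ∧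
    Controlled (volume : Measure ℂ) (fun n => 28 * ((n : ℝ) + 1) ^ 2)
      (fun n => gradNorm (triangleWave ((n : ℝ) + 1))) rectangle ∧
    ∀ c : ℝ, c < 3 * (1 + √3) / (2 * Real.pi * √7) → ∃ b : ℝ, 0 < b ∧ ∀ n : ℕ,
      ENNReal.ofReal (2 * b * c) * volume rectangle ≤
        bandIntegral volume (triangleWave ((n : ℝ) + 1)) (gradNorm (triangleWave ((n : ℝ) + 1))) (-b) b
          rectangle / ENNReal.ofReal √(28 * ((n : ℝ) + 1) ^ 2) := by
  have hp := Real.pi_pos
  refine ⟨?_, ?_, ?_, ?_⟩
  · intro M ι _ _ _ _ _ U φ ρ area len lam f G h B hB hC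
    have S : Pool.Agent.Q218.UB.Srf.Sf U φ ρ area len lam f G :=
      { at' := ⟨h.atlas.isOpen_domain, h.atlas.continuous_chart, h.atlas.injective_chart,
          h.atlas.open_chart, h.atlas.cover, h.atlas.density_pos,
          fun i => (h.atlas.density_smooth i).continuousOn, h.atlas.area_chart, h.atlas.len_chart⟩
        rs := h.atlas.density_smooth
        tl := h.tendsto
        ef := fun n i => h.eigen n i
        gn := fun n i z hz => h.grad n i z hz
        lb := h.bounded }
    have hfin : area B ≠ ⊤ := by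
      rcases hC with ⟨K, hK, hBK⟩ | ⟨hfin, -⟩
      · exact ((measure_mono hBK).trans_lt (lt_top_iff_ne_top.2 (S.compact hK).1)).ne
      · exact hfin
    obtain ⟨C, C0, hE⟩ : ∃ C : ℝ, 0 ≤ C ∧ ∀ᶠ n in atTop,
        ∫⁻ x in B, ENNReal.ofReal (G n x ^ 2) ∂area ≤ ENNReal.ofReal (C * lam n) := by
      rcases hC with ⟨K, hK, hBK⟩ | ⟨-, C, C0, hE⟩
      · obtain ⟨C, C0, hE⟩ := (S.compact hK).2
        exact ⟨C, C0, hE.mono fun n hn => (lintegral_mono_set hBK).trans hn⟩
      · exact ⟨C, C0, hE⟩
    have up : ∀ a b : ℝ, a ≤ b → Pool.Agent.Q218.UB.Seq.Up (Pool.Agent.Q218.UB.Srf.FS area f G lam a b B)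
        (ENNReal.ofReal ((b - a) * (1 / 2)) * area B) := fun a b hab => S.bound hB hfin C0 hE hab
    refine ⟨fun a b hab => ?_, S.curves hB hfin up⟩
    have h1 := (up a b hab).limsup_le
    have e : (b - a) * (1 / 2) = (b - a) / 2 := by ring
    rw [e] at h1
    exact h1
  · refine ⟨⟨fun _ => isOpen_univ, fun _ => continuousOn_id, fun _ => Set.injOn_id _, fun _ S hS _ => ?_,
      fun x => ⟨(), x, trivial, rfl⟩, fun _ _ _ => one_pos, fun _ => contDiffOn_const, fun _ S hS _ => ?_,
      fun _ S hS _ => ?_⟩, ?_, fun n _ => ⟨?_, fun z _ => ?_⟩, fun n _ z _ => ?_, fun K hK => ?_⟩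
    · rw [Set.image_id']; exact hS
    · rw [Set.image_id']; simp
    · rw [Set.image_id']; simp
    · have h1 : Tendsto (fun n : ℕ => ((n : ℝ) + 1) ^ 2) atTop atTop :=
        (tendsto_pow_atTop (by norm_num)).comp (tendsto_atTop_add_const_right _ _ tendsto_natCast_atTop_atTop)
      exact h1.const_mul_atTop (by norm_num)
    · show ContDiffOn ℝ ∞ (fun z => triangleWave ((n : ℝ) + 1) z) Set.univ
      rw [wave_eq]
      exact (Pool.Agent.Q218.UB.G2.wv_sm _).contDiffOn
    · show laplacian (fun z => triangleWave ((n : ℝ) + 1) z) z +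
        28 * ((n : ℝ) + 1) ^ 2 * 1 * triangleWave ((n : ℝ) + 1) z = 0
      rw [wave_eq, mul_one]
      exact Pool.Agent.Q218.UB.G2.wv_lp _ z
    · show gradNorm (triangleWave ((n : ℝ) + 1)) z =
        gradNorm (fun w => triangleWave ((n : ℝ) + 1) w) z / √1
      rw [Real.sqrt_one, div_one]
    · refine ⟨9 * (volume K).toReal, Eventually.of_forall fun n => ?_⟩
      calc ∫⁻ x in K, ENNReal.ofReal (triangleWave ((n : ℝ) + 1) x ^ 2)
          ≤ ∫⁻ _ in K, ENNReal.ofReal 9 := lintegral_mono fun x => ENNReal.ofReal_le_ofReal (wave_le _ x)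
        _ = ENNReal.ofReal 9 * volume K := by rw [setLIntegral_const]
        _ = _ := by rw [ENNReal.ofReal_mul (by norm_num), ENNReal.ofReal_toReal hK.measure_lt_top.ne]
  · left
    refine ⟨Metric.closedBall 0 (3 * Real.pi), isCompact_closedBall _ _, fun z hz => ?_⟩
    obtain ⟨⟨h1, h2⟩, h3, h4⟩ := hz
    have s3 : 1 ≤ √(3 : ℝ) := by
      rw [Real.one_le_sqrt]; norm_num
    have a1 : |z.re| ≤ 3 * Real.pi / 2 := abs_le.2 ⟨by linarith, h2.le⟩
    have a2 : |z.im| ≤ 3 * Real.pi / 2 := by
      have h5 : √3 * |z.im| ≤ 3 * Real.pi / 2 := by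
        rw [← abs_of_nonneg (Real.sqrt_nonneg 3), ← abs_mul, abs_le]
        exact ⟨by linarith, h4.le⟩
      have h6 := mul_le_mul_of_nonneg_right s3 (abs_nonneg z.im)
      linarith
    rw [mem_closedBall_zero_iff]
    have := Complex.norm_le_abs_re_add_abs_im z
    linarith
  · intro c hc
    have e7 : √(28 : ℝ) = 2 * √7 := by
      rw [show (28 : ℝ) = 2 ^ 2 * 7 by norm_num, Real.sqrt_mul (by norm_num), Real.sqrt_sq (by norm_num)]
    rcases lt_or_ge c 0 with h0 | h0
    · refine ⟨1, one_pos, fun n => ?_⟩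
      rw [ENNReal.ofReal_of_nonpos (by linarith), zero_mul]
      exact zero_le
    · obtain ⟨b, hb, h⟩ := Pool.Agent.Q218.UB.G2.sharp h0 (c := c) (by
        rw [e7]
        have : Real.pi * (2 * √7) = 2 * Real.pi * √7 := by ring
        rw [this]
        exact hc)
      refine ⟨b, hb, fun n => ?_⟩
      have h1 := h (n + 1) (Nat.succ_ne_zero n)
      have e1 : (((n + 1 : ℕ)) : ℝ) = (n : ℝ) + 1 := by push_cast; ring
      rw [e1] at h1
      rw [wave_eq]
      exact h1

end

end Pool.Agent.Results.MP_a52643_an.LevelSets
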