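import Mathlib
import Pool.Agent.Q73.PW.All

/-!
# Plane waves are extremal for all `L^q` norms of eigenfunctions on surfaces (MP_a52643_an)

Let `M` be a Riemannian surface (any curvature, compact or not), `D` an open subset of finite area and `f_n`
real eigenfunctions with eigenvalues `λ_n → ∞`, bounded in `L²(D)`. The theorem compares the law of `f_n` on
`D` with the law of the plane wave `√(2 m) cos`, `m` the mean of `f_n²` over `D`: the mean of `|f_n|^q` is
asymptotically at most (`0 < q < 2`), at least (`q > 2`) the mean of `|√(2 m) cos|^q`; more generally the mean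
of `Φ(f_n)` is at least the mean of `Φ(√(2 m) cos)` for all even `Φ` such that `Φ'(x)/x` and `(x Φ'(x))'/x` are
nondecreasing on `(0, ∞)`. So every weak limit `ν` of the laws has `∫ |x|^q dν ≤ κ_q (2 m)^(q/2)`, `0 < q < 2`.

Proof. Let `P = f² + |∇f|²/λ`. An explicit vector field `a ∇f + b ∇P`, `a` and `b` functions of `(f, |∇f|²/λ)`,
has divergence at least `λ (m_Φ(√P) - Φ(f))` up to lower order terms (a divergence identity in dimension
two, and inequalities for functions of one variable), `m_Φ(r)` the mean of `Φ(r cos t)`. Integration against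
test functions gives the local form (2), with an error `O(λ^(-1/2))`; `p ↦ m_Φ(√p)` is convex and the mean of
`P` is `2 m`.
-/

set_option autoImplicit false
open MeasureTheory Filter Topology Complex
open scoped ContDiff ENNReal

namespace Pool.Agent.Results.MP_a52643_an.PlaneWavesExtremal

noncomputable section

universe u v

/-- the Laplacian of the plane `ℂ`: `∂_x² + ∂_y²` -/
def laplacian (f : ℂ → ℝ) (z : ℂ) : ℝ :=
  fderiv ℝ (fun w => fderiv ℝ f w 1) z 1 + fderiv ℝ (fun w => fderiv ℝ f w I) z I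

/-- An isothermal atlas of a Riemannian surface `M`: the charts `φ i`, defined on the open sets `U i` of
the plane, are homeomorphisms onto open sets that cover `M`; the metric is `ρ i |dz|²` in the `i`-th
chart, `ρ i` smooth, that is, the area `area` of `M` is `∫ ρ i dx dy` and the length `len` (one-dimensional
Hausdorff measure) is `∫ √(ρ i) dH¹`, for the Borel subsets of the chart. -/
structure IsothermalAtlas {M ι : Type*} [TopologicalSpace M] [MeasurableSpace M] (U : ι → Set ℂ)
    (φ : ι → ℂ → M) (ρ : ι → ℂ → ℝ) (area len : Measure M) : Prop where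
  isOpen_domain : ∀ i, IsOpen (U i)
  continuous_chart : ∀ i, ContinuousOn (φ i) (U i)
  injective_chart : ∀ i, Set.InjOn (φ i) (U i)
  open_chart : ∀ i (S : Set ℂ), IsOpen S → S ⊆ U i → IsOpen (φ i '' S)
  cover : ∀ x : M, ∃ i, x ∈ φ i '' U i
  density_pos : ∀ i, ∀ z ∈ U i, 0 < ρ i z
  density_smooth : ∀ i, ContDiffOn ℝ ∞ (ρ i) (U i)
  area_chart : ∀ i (S : Set ℂ), MeasurableSet S → S ⊆ U i →
    area (φ i '' S) = ∫⁻ z in S, ENNReal.ofReal (ρ i z)
  len_chart : ∀ i (S : Set ℂ), MeasurableSet S → S ⊆ U i →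
    len (φ i '' S) = ∫⁻ z in S, ENNReal.ofReal (Real.sqrt (ρ i z)) ∂(μH[1] : Measure ℂ)

/-- `f` is a real smooth function on `M` with `Δ_g f + lam f = 0`: in the chart `φ i` the
Laplace-Beltrami operator is `Δ / ρ i` -/
def IsEigenfunction {M ι : Type*} (U : ι → Set ℂ) (φ : ι → ℂ → M) (ρ : ι → ℂ → ℝ) (lam : ℝ)
    (f : M → ℝ) : Prop :=
  ∀ i, ContDiffOn ℝ ∞ (fun z => f (φ i z)) (U i) ∧
    ∀ z ∈ U i, laplacian (fun z => f (φ i z)) z + lam * ρ i z * f (φ i z) = 0

/-- the mean of `g` over `D` -/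
def mean {M : Type*} [MeasurableSpace M] (area : Measure M) (D : Set M) (g : M → ℝ) : ℝ :=
  (∫ x in D, g x ∂area) / (area D).toReal

/-- the mean of `Φ (r cos t)` over a period (for even `Φ`) -/
def waveMean (Φ : ℝ → ℝ) (r : ℝ) : ℝ := (∫ t in (0 : ℝ)..Real.pi, Φ (r * Real.cos t)) / Real.pi

/-- `κ_q`, the mean of `|cos t|^q` -/
def kappa (q : ℝ) : ℝ := waveMean (fun x => |x| ^ q) 1

/-- `Φ` is smooth and even, `Φ''` is bounded, `Φ'(x)/x` and `(x Φ'(x))'/x` are nondecreasing on `(0, ∞)` -/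
structure Admissible (Φ : ℝ → ℝ) : Prop where
  smooth : ContDiff ℝ ∞ Φ
  even : ∀ x, Φ (-x) = Φ x
  bounded : ∃ L : ℝ, ∀ x, |deriv (deriv Φ) x| ≤ L
  increasing : ∀ x y : ℝ, 0 < x → x ≤ y → deriv Φ x / x ≤ deriv Φ y / y
  increasing' : ∀ x y : ℝ, 0 < x → x ≤ y →
    deriv (fun t => t * deriv Φ t) x / x ≤ deriv (fun t => t * deriv Φ t) y / y

/-- the sequence `u` is locally bounded in `L²` on `Ω` -/
def LocallyBounded (Ω : Set ℂ) (u : ℕ → ℂ → ℝ) : Prop :=
  ∀ K : Set ℂ, IsCompact K → K ⊆ Ω → ∃ C : ℝ, ∀ᶠ n in atTop, ∫ z in K, u n z ^ 2 ≤ C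

/-- the energy density `u² + |∇u|² / λ` for the metric `ρ |dz|²` -/
def energy (lam : ℝ) (ρ u : ℂ → ℝ) (z : ℂ) : ℝ :=
  u z ^ 2 + (fderiv ℝ u z 1 ^ 2 + fderiv ℝ u z I ^ 2) / (lam * ρ z)

/-- `ν` is the weak limit, along a subsequence, of the laws of `f n` on `D` -/
def IsWeakLimit {M : Type*} [MeasurableSpace M] (area : Measure M) (D : Set M) (f : ℕ → M → ℝ)
    (ν : Measure ℝ) : Prop :=
  ∃ σ : ℕ → ℕ, StrictMono σ ∧ ∀ g : ℝ → ℝ, Continuous g → (∃ C, ∀ x, |g x| ≤ C) →
    Tendsto (fun n => mean area D (fun x => g (f (σ n) x))) atTop (𝓝 (∫ x, g x ∂ν))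

/-- **Plane waves are extremal.** (1) Let `M` be a Riemannian surface given by an isothermal atlas,
`f n` eigenfunctions with eigenvalues `lam n → ∞`, `D` an open subset of finite area such that the means
of `f_n²` over `D` are at most `B`. For every `η > 0` and all large `n`: the mean of `Φ(f_n)` is at least the
mean of `Φ(√(2 m_n) cos t)` minus `η`, `m_n` the mean of `f_n²`, for all admissible `Φ`; the mean of `|f_n|^q`
is at most `κ_q (2 m_n)^(q/2) + η` for `0 < q < 2`, and at least `κ_q (2 m_n)^(q/2) - η` for `q > 2`. Every weak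
limit `ν` of the laws of `f_n` on `D` has `∫ |x|^q dν ≤ κ_q (2 B)^(q/2)` for `0 < q < 2`. (2) Local form in a
chart with the metric `ρ |dz|²`, with the error `O(λ^(-1/2))` and the energy density
`P = u² + |∇u|²/λ`: `∫ χ m_Φ(√P) dvol ≤ ∫ χ Φ(u) dvol + C λ^(-1/2)` for every test function `χ ≥ 0`.
(3) `κ_1 = 2/π` and `κ_2 = 1/2`. -/
theorem result :
    (∀ (M : Type u) (ι : Type v) [TopologicalSpace M] [T2Space M] [SecondCountableTopology M]
      [MeasurableSpace M] [BorelSpace M] (U : ι → Set ℂ) (φ : ι → ℂ → M) (ρ : ι → ℂ → ℝ)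
      (area len : Measure M), IsothermalAtlas U φ ρ area len →
      ∀ (lam : ℕ → ℝ) (f : ℕ → M → ℝ), Tendsto lam atTop atTop →
        (∀ n, IsEigenfunction U φ ρ (lam n) (f n)) → ∀ (D : Set M) (B : ℝ), IsOpen D →
        0 < area D → area D ≠ ⊤ → (∀ n, IntegrableOn (fun x => f n x ^ 2) D area) →
        (∀ n, mean area D (fun x => f n x ^ 2) ≤ B) →
        (∀ η : ℝ, 0 < η →
          (∀ Φ : ℝ → ℝ, Admissible Φ → ∀ᶠ n in atTop,
            waveMean Φ √(2 * mean area D (fun x => f n x ^ 2)) ≤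
              mean area D (fun x => Φ (f n x)) + η) ∧
          (∀ q : ℝ, 0 < q → q < 2 → ∀ᶠ n in atTop, mean area D (fun x => |f n x| ^ q) ≤
            kappa q * (2 * mean area D (fun x => f n x ^ 2)) ^ (q / 2) + η) ∧
          (∀ q : ℝ, 2 < q → ∀ᶠ n in atTop,
            ENNReal.ofReal (kappa q * (2 * mean area D (fun x => f n x ^ 2)) ^ (q / 2)) ≤
              (∫⁻ x in D, ENNReal.ofReal (|f n x| ^ q) ∂area) / area D + ENNReal.ofReal η)) ∧
        ∀ ν : Measure ℝ, IsProbabilityMeasure ν → IsWeakLimit area D f ν →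
          ∀ q : ℝ, 0 < q → q < 2 →
            ∫⁻ x, ENNReal.ofReal (|x| ^ q) ∂ν ≤ ENNReal.ofReal (kappa q * (2 * B) ^ (q / 2))) ∧
    (∀ (Ω : Set ℂ) (ρ : ℂ → ℝ) (lam : ℕ → ℝ) (u : ℕ → ℂ → ℝ), IsOpen Ω → ContDiffOn ℝ ∞ ρ Ω →
      (∀ z ∈ Ω, 0 < ρ z) → Tendsto lam atTop atTop → (∀ n, ContDiffOn ℝ ∞ (u n) Ω) →
      (∀ n, ∀ z ∈ Ω, laplacian (u n) z + lam n * (ρ z * u n z) = 0) → LocallyBounded Ω u →
      ∀ χ : ℂ → ℝ, ContDiff ℝ ∞ χ → HasCompactSupport χ → tsupport χ ⊆ Ω → (∀ z, 0 ≤ χ z) →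
      ∀ Φ : ℝ → ℝ, Admissible Φ → ∃ C : ℝ, ∀ᶠ n in atTop,
        ∫ z, χ z * ρ z * waveMean Φ √(energy (lam n) ρ (u n) z) ≤
          (∫ z, χ z * ρ z * Φ (u n z)) + C / √(lam n)) ∧
    kappa 1 = 2 / Real.pi ∧ kappa 2 = 1 / 2 := by
  obtain ⟨j5, j3, a1, a2, p1, p2⟩ := Pool.Agent.Q73.PW.allSt
  refine ⟨?_, ?_, a1.2.2.2.1, a1.2.2.2.2.1⟩
  · intro M ι _ _ _ _ _ U φ ρ area len h lam f hl hf D B hD V0' hfin hi hB
    have hA : SharpNodalLength.IsothermalAtlas U φ ρ area len :=
      ⟨h.isOpen_domain, h.continuous_chart, h.injective_chart, h.open_chart, h.cover, h.density_pos,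
        fun i => (h.density_smooth i).continuousOn, h.area_chart, h.len_chart⟩
    have V0 : 0 < (area D).toReal := ENNReal.toReal_pos V0'.ne' hfin
    have hb : ∀ n, ∫ x in D, f n x ^ 2 ∂area ≤ (area D).toReal * B := by
      intro n
      have := hB n
      unfold mean at this
      rwa [div_le_iff₀ V0, mul_comm] at this
    have hb' : ∀ n, ∫⁻ x in D, ENNReal.ofReal (f n x ^ 2) ∂area ≤
        ENNReal.ofReal ((area D).toReal * B) := by
      intro n
      rw [← ofReal_integral_eq_lintegral_ofReal (hi n) (ae_of_all _ fun x => sq_nonneg _)]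
      exact ENNReal.ofReal_le_ofReal (hb n)
    obtain ⟨mf, -, C⟩ := Pool.Agent.Q73.PW.Gl.surface Pool.Agent.Q73.PW.all13 Pool.Agent.Q73.PW.j15
      Pool.Agent.Q73.PW.j16 a2 M ι U φ ρ area len hA h.density_smooth lam f D ((area D).toReal * B) hl
      (fun n i => hf n i) hD hfin hb'
    have em : ∀ n, (2 * ∫ x in D, f n x ^ 2 ∂area) / (area D).toReal =
        2 * mean area D (fun x => f n x ^ 2) := fun n => by unfold mean; ring
    have low : ∀ η : ℝ, 0 < η → ∀ q : ℝ, 0 < q → q < 2 → ∀ᶠ n in atTop,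
        mean area D (fun x => |f n x| ^ q) ≤
          kappa q * (2 * mean area D (fun x => f n x ^ 2)) ^ (q / 2) + η := by
      intro η hη q q0 q2
      filter_upwards [Pool.Agent.Q73.PW.Gl.low_mean a1 p1 hfin V0 (fun n => (mf n).aestronglyMeasurable)
        hi C q0 q2 hη] with n hn
      rw [em] at hn
      exact hn
    refine ⟨fun η hη => ⟨fun Φ hΦ => ?_, low η hη, fun q hq => ?_⟩, fun ν hν hlim q q0 q2 => ?_⟩
    · obtain ⟨L, hL⟩ := hΦ.bounded
      filter_upwards [Pool.Agent.Q73.PW.Gl.cmp_mean C V0 (L := L) ⟨hΦ.smooth, hΦ.even, hL⟩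
        hΦ.increasing hΦ.increasing' hη] with n hn
      rw [em] at hn
      exact hn
    · filter_upwards [Pool.Agent.Q73.PW.Gl.high_mean a1 p2 j3 hfin V0 hb C hq hη] with n hn
      rw [em] at hn
      exact hn
    · -- weak limits
      obtain ⟨σ, hσ, hg⟩ := hlim
      have hfinm : IsFiniteMeasure (area.restrict D) :=
        ⟨by rw [Measure.restrict_apply_univ]; exact lt_top_iff_ne_top.2 hfin⟩
      have k0 : 0 < kappa q := a1.2.1 q q0
      have B0 : 0 ≤ B := le_trans (div_nonneg (integral_nonneg fun x => sq_nonneg _) V0.le) (hB 0)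
      have bd : ∀ R : ℝ, 0 ≤ R → ∫ x, min (|x| ^ q) R ∂ν ≤ kappa q * (2 * B) ^ (q / 2) := by
        intro R hR
        have cg : Continuous fun x : ℝ => min (|x| ^ q) R :=
          (continuous_abs.rpow_const fun x => Or.inr q0.le).min continuous_const
        have nn : ∀ x : ℝ, 0 ≤ min (|x| ^ q) R := fun x => le_min (by positivity) hR
        have ht := hg (fun x => min (|x| ^ q) R) cg ⟨R, fun x => by
          rw [abs_of_nonneg (nn x)]; exact min_le_right _ _⟩
        refine le_of_forall_pos_le_add fun η hη => le_of_tendsto ht ?_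
        filter_upwards [hσ.tendsto_atTop.eventually (low η hη q q0 q2)] with n hn
        have i1 : Integrable (fun x => |f (σ n) x| ^ q) (area.restrict D) := by
          refine Integrable.mono' (g := fun x => 1 + f (σ n) x ^ 2) ((integrable_const _).add (hi (σ n)))
            (((mf (σ n)).abs.pow_const q).aestronglyMeasurable) (ae_of_all _ fun s => ?_)
          rw [Real.norm_eq_abs, abs_of_nonneg (by positivity)]
          have e : |f (σ n) s| ^ q = (f (σ n) s ^ 2) ^ (q / 2) := by
            rw [← sq_abs, ← Real.rpow_natCast, ← Real.rpow_mul (abs_nonneg _)]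
            congr 1; push_cast; ring
          rw [e]
          rcases le_total (f (σ n) s ^ 2) 1 with h1 | h1
          · have := Real.rpow_le_one (sq_nonneg _) h1 (by positivity : 0 ≤ q / 2)
            have := sq_nonneg (f (σ n) s)
            linarith
          · have : (f (σ n) s ^ 2) ^ (q / 2) ≤ (f (σ n) s ^ 2) ^ (1 : ℝ) :=
              Real.rpow_le_rpow_of_exponent_le h1 (by linarith)
            rw [Real.rpow_one] at this; linarith
        have m1 : mean area D (fun x => min (|f (σ n) x| ^ q) R) ≤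
            mean area D (fun x => |f (σ n) x| ^ q) := by
          unfold mean
          exact div_le_div_of_nonneg_right (integral_mono_of_nonneg (ae_of_all _ fun x => nn _) i1
            (ae_of_all _ fun x => min_le_left _ _)) V0.le
        have m2 : kappa q * (2 * mean area D (fun x => f (σ n) x ^ 2)) ^ (q / 2) ≤
            kappa q * (2 * B) ^ (q / 2) := by
          have h0 : 0 ≤ mean area D (fun x => f (σ n) x ^ 2) :=
            div_nonneg (integral_nonneg fun x => sq_nonneg _) V0.le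
          have := hB (σ n)
          gcongr
        linarith
      have t1 : ∀ x : ℝ, ENNReal.ofReal (|x| ^ q) =
          ⨆ N : ℕ, ENNReal.ofReal (min (|x| ^ q) N) := by
        intro x
        refine le_antisymm ?_ (iSup_le fun N => ENNReal.ofReal_le_ofReal (min_le_left _ _))
        obtain ⟨N, hN⟩ := exists_nat_ge (|x| ^ q)
        refine le_iSup_of_le N ?_
        rw [min_eq_left hN]
      simp only [t1]
      rw [lintegral_iSup (fun N => by fun_prop) (fun a b hab x => by
        have : (a : ℝ) ≤ b := by exact_mod_cast hab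
        exact ENNReal.ofReal_le_ofReal (min_le_min le_rfl this))]
      refine iSup_le fun N => ?_
      have nn : ∀ x : ℝ, 0 ≤ min (|x| ^ q) (N : ℝ) := fun x => le_min (by positivity) N.cast_nonneg
      have i2 : Integrable (fun x : ℝ => min (|x| ^ q) (N : ℝ)) ν := by
        have cg : Continuous fun x : ℝ => min (|x| ^ q) (N : ℝ) :=
          (continuous_abs.rpow_const fun x => Or.inr q0.le).min continuous_const
        refine Integrable.mono' (g := fun _ => (N : ℝ)) (integrable_const _)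
          cg.aestronglyMeasurable (ae_of_all _ fun x => ?_)
        rw [Real.norm_eq_abs, abs_of_nonneg (nn x)]
        exact min_le_right _ _
      rw [← ofReal_integral_eq_lintegral_ofReal i2 (ae_of_all _ nn)]
      exact ENNReal.ofReal_le_ofReal (bd N N.cast_nonneg)
  · intro Ω ρ lam u hΩ hρ hρ0 hl hu he hL χ c1 c2 c3 c4 Φ hΦ
    obtain ⟨L, hL'⟩ := hΦ.bounded
    exact Pool.Agent.Q73.PW.all10 Ω ρ lam u ⟨hΩ, hρ, hρ0, hl, hu, he, hL⟩ χ ⟨c1, c2, c3, c4⟩ Φ L
      ⟨hΦ.smooth, hΦ.even, hL'⟩ hΦ.increasing hΦ.increasing'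

end

end Pool.Agent.Results.MP_a52643_an.PlaneWavesExtremal
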