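import Pool.Agent.Q80.LW.D

/-!
# Limit laws of eigenfunctions have a density in weak `L²` away from zero (MP_a52643_an)

`Ω ⊆ ℂ` is the domain of isothermal coordinates of a Riemannian surface with metric `ρ |dz|²`,
so `dvol = ρ dx dy` and `Δ_g = ρ⁻¹ (∂x² + ∂y²)`. The definitions `lapl`, `LocL2`, `Test` and
`IsLimitLaw` are those of the file `AbsoluteContinuity`.
-/

set_option autoImplicit false
open MeasureTheory Filter Topology Set
open scoped ContDiff ENNReal

namespace Pool.Agent.Results.MP_a52643_an.WeakL2Density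

noncomputable section

open Pool.Agent.Results.MP_a52643_an.AbsoluteContinuity

/-- the mass `∫ φ dvol` of the set of points of `Ω` where `f` takes a value in `A` -/
def mass (Ω : Set ℂ) (φ ρ f : ℂ → ℝ) (A : Set ℝ) : ℝ :=
  ∫ z in {z | z ∈ Ω ∧ f z ∈ A}, φ z * ρ z

lemma lim_bound {x K v c : ℝ} (h : ∀ ε : ℝ, 0 < ε → x ≤ K * √((v + ε) / c)) : x ≤ K * √(v / c) := by
  have h1 : Tendsto (fun ε : ℝ => K * √((v + ε) / c)) (𝓝[>] 0) (𝓝 (K * √((v + 0) / c))) := by
    apply Tendsto.mono_left _ nhdsWithin_le_nhds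
    have : Continuous (fun ε : ℝ => K * √((v + ε) / c)) := by fun_prop
    exact this.tendsto 0
  rw [add_zero] at h1
  exact ge_of_tendsto h1 (eventually_mem_nhdsWithin.mono fun ε hε => h ε hε)

lemma measurable_level {Ω : Set ℂ} (hΩ : IsOpen Ω) {f : ℂ → ℝ} (hf : ContinuousOn f Ω) {A : Set ℝ}
    (hA : MeasurableSet A) : MeasurableSet {z | z ∈ Ω ∧ f z ∈ A} := by
  classical
  have p := hf.measurable_piecewise (g := fun _ => (0 : ℝ)) (continuousOn_const (s := Ωᶜ)) hΩ.measurableSet
  have e : {z | z ∈ Ω ∧ f z ∈ A} = Ω ∩ (Ω.piecewise f fun _ => 0) ⁻¹' A := by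
    ext z
    have pz : z ∈ Ω → Ω.piecewise f (fun _ => 0) z = f z := fun hz => piecewise_eq_of_mem _ _ _ hz
    constructor
    · rintro ⟨h1, h2⟩
      refine ⟨h1, ?_⟩
      show Ω.piecewise f (fun _ => 0) z ∈ A
      rw [pz h1]
      exact h2
    · rintro ⟨h1, h2⟩
      have h2' : Ω.piecewise f (fun _ => 0) z ∈ A := h2
      rw [pz h1] at h2'
      exact ⟨h1, h2'⟩
  rw [e]
  exact hΩ.measurableSet.inter (p hA)

/-- **Limit laws of eigenfunctions have a density in weak `L²` away from zero.** -/
theorem result : ∀ (Ω : Set ℂ) (ρ : ℂ → ℝ) (lam : ℕ → ℝ) (u : ℕ → ℂ → ℝ), IsOpen Ω →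
    ContDiffOn ℝ ∞ ρ Ω → (∀ z ∈ Ω, 0 < ρ z) → Tendsto lam atTop atTop →
    (∀ n, ContDiffOn ℝ ∞ (u n) Ω) → (∀ n, ∀ z ∈ Ω, lapl (u n) z + lam n * (ρ z * u n z) = 0) →
    LocL2 Ω u → ∀ φ : ℂ → ℝ, Test Ω φ → ∃ C : ℝ, 0 ≤ C ∧
      (∀ᶠ n in atTop, ∀ (c : ℝ) (A : Set ℝ), 0 < c → MeasurableSet A → (∀ x ∈ A, c ≤ |x|) →
        volume A ≠ ⊤ → mass Ω φ ρ (u n) A ≤ C * (1 + 1 / c) * √((volume A).toReal / c)) ∧
      ∀ ν : Measure ℝ, IsFiniteMeasure ν → IsLimitLaw φ ρ u ν →
        (∀ (c : ℝ) (A : Set ℝ), 0 < c → (∀ x ∈ A, c ≤ |x|) → volume A ≠ ⊤ →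
          (ν A).toReal ≤ C * (1 + 1 / c) * √((volume A).toReal / c)) ∧
        ∃ f : ℝ → ℝ≥0∞, Measurable f ∧ ν.restrict {0}ᶜ = volume.withDensity f ∧
          ∀ c s : ℝ, 0 < c → 0 < s → volume {x | c ≤ |x| ∧ ENNReal.ofReal s < f x} ≤
            ENNReal.ofReal ((C * (1 + 1 / c)) ^ 2 / (c * s ^ 2)) := by
  intro Ω ρ lam u hΩ hρ hρ0 hlam hu he hL φ hφ
  set K0 := tsupport φ with hK0d
  have hK0 : IsCompact K0 := hφ.2.1
  have hKΩ : K0 ⊆ Ω := hφ.2.2.1
  have φ0 : ∀ z, z ∉ K0 → φ z = 0 := fun z hz => image_eq_zero_of_notMem_tsupport hz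
  obtain ⟨C1, C10, E1⟩ := Q80.LW.mass_bound hΩ hρ hρ0 hlam hu he hL hK0 hKΩ
  obtain ⟨M0, hM0⟩ := hK0.exists_bound_of_continuousOn
    (hφ.1.continuous.continuousOn.mul (hρ.continuousOn.mono hKΩ))
  set M := |M0| with hM
  have hMφ : ∀ z ∈ K0, ‖φ z * ρ z‖ ≤ M := fun z hz => (hM0 z hz).trans (le_abs_self _)
  have M00 : 0 ≤ M := abs_nonneg _
  -- bound of an integral over the set where `u n` lies in `A`
  have vol_real : ∀ {n : ℕ} {A : Set ℝ} {X : ℝ}, 0 ≤ X →
      volume {z | z ∈ K0 ∧ u n z ∈ A} ≤ ENNReal.ofReal X → volume.real {z | z ∈ K0 ∧ u n z ∈ A} ≤ X := by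
    intro n A X hX h
    exact ENNReal.toReal_le_of_le_ofReal hX h
  refine ⟨4 * (M * C1), by positivity, ?_, ?_⟩
  · filter_upwards [E1] with n E1 c A hc hA hAc hAf
    have hS : MeasurableSet {z | z ∈ Ω ∧ u n z ∈ A} := measurable_level hΩ (hu n).continuousOn hA
    have e1 : mass Ω φ ρ (u n) A = ∫ z in {z | z ∈ K0 ∧ u n z ∈ A}, φ z * ρ z := by
      unfold mass
      apply setIntegral_eq_of_subset_of_forall_sdiff_eq_zero hS
      · exact fun z hz => ⟨hKΩ hz.1, hz.2⟩
      · rintro z ⟨⟨h1, h2⟩, h3⟩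
        have : z ∉ K0 := fun h => h3 ⟨h, h2⟩
        rw [φ0 z this, zero_mul]
    have hfin : volume {z | z ∈ K0 ∧ u n z ∈ A} < ⊤ :=
      (measure_mono (fun z hz => hz.1)).trans_lt hK0.measure_lt_top
    have e2 : mass Ω φ ρ (u n) A ≤ M * volume.real {z | z ∈ K0 ∧ u n z ∈ A} := by
      rw [e1]
      refine (le_abs_self _).trans ?_
      rw [← Real.norm_eq_abs]
      exact norm_setIntegral_le_of_norm_le_const hfin (fun z hz => hMφ z hz.1)
    have e3 : mass Ω φ ρ (u n) A ≤ (M * C1) * (1 + 1 / c) * √((volume A).toReal / c) := by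
      apply lim_bound
      intro ε hε
      have hv0 : 0 ≤ (volume A).toReal := ENNReal.toReal_nonneg
      have hδ : volume A ≤ ENNReal.ofReal ((volume A).toReal + ε) := by
        rw [← ENNReal.ofReal_toReal hAf]
        apply ENNReal.ofReal_le_ofReal
        rw [ENNReal.toReal_ofReal hv0]
        linarith
      have h1 := vol_real (by positivity) (E1 A _ c hA (by positivity) hc hAc hδ)
      refine e2.trans ((mul_le_mul_of_nonneg_left h1 M00).trans (le_of_eq ?_))
      ring
    refine e3.trans ?_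
    have h4 : 0 ≤ (M * C1) * (1 + 1 / c) * √((volume A).toReal / c) := by positivity
    have e4 : 4 * (M * C1) * (1 + 1 / c) * √((volume A).toReal / c) =
        4 * ((M * C1) * (1 + 1 / c) * √((volume A).toReal / c)) := by ring
    rw [e4]
    linarith
  · intro ν hν hlim
    obtain ⟨σ, hσ, hg⟩ := hlim
    -- compact sets
    have base : ∀ (c : ℝ) (K : Set ℝ), 0 < c → IsCompact K → (∀ x ∈ K, c ≤ |x|) →
        (ν K).toReal ≤ 4 * (M * C1) * (1 + 1 / c) * √((volume K).toReal / c) := by
      intro c K hc hK hKc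
      apply lim_bound
      intro ε hε
      have hv0 : 0 ≤ (volume K).toReal := ENNReal.toReal_nonneg
      have hKf : volume K ≠ ⊤ := hK.measure_lt_top.ne
      have hKε : volume K < ENNReal.ofReal ((volume K).toReal + ε) := by
        have e1 : volume K = ENNReal.ofReal (volume K).toReal := (ENNReal.ofReal_toReal hKf).symm
        conv_lhs => rw [e1]
        rw [ENNReal.ofReal_lt_ofReal_iff (by positivity)]
        linarith
      obtain ⟨U0, hKU0, hU0, hU0e⟩ := K.exists_isOpen_lt_of_lt _ hKε
      set U := U0 ∩ {x | c / 2 < |x|} with hU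
      have hUo : IsOpen U := hU0.inter (isOpen_lt continuous_const continuous_abs)
      have hKU : K ⊆ U := fun x hx => ⟨hKU0 hx, by
        show c / 2 < |x|
        linarith [hKc x hx]⟩
      have hUe : volume U ≤ ENNReal.ofReal ((volume K).toReal + ε) :=
        (measure_mono inter_subset_left).trans hU0e.le
      obtain ⟨g, sg, cg, tg, gK, g0, g1⟩ := exists_cutR hUo hK hKU
      have lim := hg g sg.continuous cg
      have ev : ∀ᶠ n in atTop, ∫ z, φ z * (g (u (σ n) z) * ρ z) ≤
          4 * (M * C1) * (1 + 1 / c) * √(((volume K).toReal + ε) / c) := by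
        filter_upwards [hσ.tendsto_atTop.eventually E1] with n E1
        have h1 := vol_real (by positivity) (E1 U _ (c / 2) hUo.measurableSet (by positivity) (by positivity)
          (fun x hx => (show c / 2 < |x| from hx.2).le) hUe)
        have hfin : volume {z | z ∈ K0 ∧ u (σ n) z ∈ U} < ⊤ :=
          (measure_mono (fun z hz => hz.1)).trans_lt hK0.measure_lt_top
        have e1 : ∫ z, φ z * (g (u (σ n) z) * ρ z) =
            ∫ z in {z | z ∈ K0 ∧ u (σ n) z ∈ U}, φ z * (g (u (σ n) z) * ρ z) := by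
          refine (setIntegral_eq_integral_of_forall_compl_eq_zero fun z hz => ?_).symm
          by_cases h : z ∈ K0
          · have h2 : u (σ n) z ∉ U := fun h3 => hz ⟨h, h3⟩
            have h3 : g (u (σ n) z) = 0 := image_eq_zero_of_notMem_tsupport fun h4 => h2 (tg h4)
            rw [h3]; ring
          · rw [φ0 z h]; ring
        rw [e1]
        refine (le_abs_self _).trans ?_
        rw [← Real.norm_eq_abs]
        have h2 := norm_setIntegral_le_of_norm_le_const (f := fun z => φ z * (g (u (σ n) z) * ρ z)) (C := M) hfin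
          (fun z hz => by
            have e2 : φ z * (g (u (σ n) z) * ρ z) = g (u (σ n) z) * (φ z * ρ z) := by ring
            rw [e2, norm_mul]
            have h3 : ‖g (u (σ n) z)‖ ≤ 1 := by
              rw [Real.norm_of_nonneg (g0 _)]
              exact g1 _
            calc ‖g (u (σ n) z)‖ * ‖φ z * ρ z‖ ≤ 1 * M := mul_le_mul h3 (hMφ z hz.1) (norm_nonneg _) zero_le_one
              _ = M := one_mul M)
        refine h2.trans ((mul_le_mul_of_nonneg_left h1 M00).trans ?_)
        have e3 : 1 + 1 / (c / 2) ≤ 2 * (1 + 1 / c) := by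
          have : 1 / (c / 2) = 2 * (1 / c) := by field_simp
          rw [this]
          linarith
        have e4 : √(((volume K).toReal + ε) / (c / 2)) ≤ 2 * √(((volume K).toReal + ε) / c) := by
          have : ((volume K).toReal + ε) / (c / 2) = 2 * (((volume K).toReal + ε) / c) := by field_simp
          rw [this, Real.sqrt_mul (by norm_num)]
          have h2 : √2 ≤ 2 := by
            rw [Real.sqrt_le_left (by norm_num)]
            norm_num
          gcongr
        calc M * (C1 * (1 + 1 / (c / 2)) * √(((volume K).toReal + ε) / (c / 2))) ≤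
            M * (C1 * (2 * (1 + 1 / c)) * (2 * √(((volume K).toReal + ε) / c))) := by gcongr
          _ = _ := by ring
      have fin : ∫ x, g x ∂ν ≤ 4 * (M * C1) * (1 + 1 / c) * √(((volume K).toReal + ε) / c) :=
        le_of_tendsto lim ev
      refine le_trans ?_ fin
      have i1 : Integrable g ν := sg.continuous.integrable_of_hasCompactSupport cg
      have e4 : (ν K).toReal = ∫ x in K, g x ∂ν := by
        have : ∫ x in K, g x ∂ν = ∫ x in K, (1 : ℝ) ∂ν :=
          setIntegral_congr_fun hK.measurableSet fun x hx => gK x hx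
        rw [this, setIntegral_const, smul_eq_mul, mul_one]
        rfl
      rw [e4]
      exact setIntegral_le_integral i1 (ae_of_all _ fun x => g0 x)
    -- measurable sets
    have meas : ∀ (c : ℝ) (A : Set ℝ), 0 < c → MeasurableSet A → (∀ x ∈ A, c ≤ |x|) → volume A ≠ ⊤ →
        (ν A).toReal ≤ 4 * (M * C1) * (1 + 1 / c) * √((volume A).toReal / c) := by
      intro c A hc hA hAc hAf
      by_contra hcon
      push Not at hcon
      have hB0 : 0 ≤ 4 * (M * C1) * (1 + 1 / c) * √((volume A).toReal / c) := by positivity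
      have h1 : ENNReal.ofReal (4 * (M * C1) * (1 + 1 / c) * √((volume A).toReal / c)) < ν A := by
        rw [← ENNReal.ofReal_toReal (measure_ne_top ν A)]
        exact (ENNReal.ofReal_lt_ofReal_iff_of_nonneg hB0).2 hcon
      obtain ⟨K, hKA, hK, hKlt⟩ := hA.exists_lt_isCompact h1
      have h2 := base c K hc hK (fun x hx => hAc x (hKA hx))
      have h3 : (volume K).toReal ≤ (volume A).toReal := ENNReal.toReal_mono hAf (measure_mono hKA)
      have h4 : (ν K).toReal ≤ 4 * (M * C1) * (1 + 1 / c) * √((volume A).toReal / c) :=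
        h2.trans (by gcongr)
      have h5 : ν K ≤ ENNReal.ofReal (4 * (M * C1) * (1 + 1 / c) * √((volume A).toReal / c)) := by
        rw [← ENNReal.ofReal_toReal (measure_ne_top ν K)]
        exact ENNReal.ofReal_le_ofReal h4
      exact absurd hKlt (not_lt.2 h5)
    have gen : ∀ (c : ℝ) (A : Set ℝ), 0 < c → (∀ x ∈ A, c ≤ |x|) → volume A ≠ ⊤ →
        (ν A).toReal ≤ 4 * (M * C1) * (1 + 1 / c) * √((volume A).toReal / c) := by
      intro c A hc hAc hAf
      set A' := toMeasurable volume A ∩ {x | c ≤ |x|} with hA'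
      have mA' : MeasurableSet A' :=
        (measurableSet_toMeasurable _ _).inter (measurableSet_le measurable_const continuous_abs.measurable)
      have hAA' : A ⊆ A' := fun x hx => ⟨subset_toMeasurable _ _ hx, hAc x hx⟩
      have hv : volume A' = volume A := by
        apply le_antisymm
        · rw [← measure_toMeasurable A]
          exact measure_mono inter_subset_left
        · exact measure_mono hAA'
      have h1 := meas c A' hc mA' (fun x hx => hx.2) (by rw [hv]; exact hAf)
      rw [hv] at h1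
      exact (ENNReal.toReal_mono (measure_ne_top ν A') (measure_mono hAA')).trans h1
    refine ⟨gen, ?_⟩
    -- absolute continuity
    have ac : ν.restrict {0}ᶜ ≪ volume := by
      intro s hs
      rw [Measure.restrict_apply₀' (measurableSet_singleton (0 : ℝ)).compl.nullMeasurableSet]
      have tk : ∀ k : ℕ, ν (s ∩ {x | 1 / ((k : ℝ) + 1) ≤ |x|}) = 0 := by
        intro k
        have hk : volume (s ∩ {x | 1 / ((k : ℝ) + 1) ≤ |x|}) = 0 := measure_mono_null inter_subset_left hs
        have h1 := gen (1 / ((k : ℝ) + 1)) (s ∩ {x | 1 / ((k : ℝ) + 1) ≤ |x|}) (by positivity)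
          (fun x hx => hx.2) (by rw [hk]; simp)
        rw [hk, ENNReal.toReal_zero, zero_div, Real.sqrt_zero, mul_zero] at h1
        have h2 : (ν (s ∩ {x | 1 / ((k : ℝ) + 1) ≤ |x|})).toReal = 0 :=
          le_antisymm h1 ENNReal.toReal_nonneg
        rcases (ENNReal.toReal_eq_zero_iff _).1 h2 with h3 | h3
        · exact h3
        · exact absurd h3 (measure_ne_top ν _)
      refine measure_mono_null (t := ⋃ k : ℕ, s ∩ {x | 1 / ((k : ℝ) + 1) ≤ |x|}) ?_
        (measure_iUnion_null tk)
      intro x hx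
      have x0 : x ≠ 0 := hx.2
      obtain ⟨k, hk⟩ := exists_nat_one_div_lt (abs_pos.2 x0)
      exact Set.mem_iUnion.2 ⟨k, hx.1, hk.le⟩
    have mf := Measure.measurable_rnDeriv (ν.restrict {0}ᶜ) volume
    have hf := Measure.withDensity_rnDeriv_eq (ν.restrict {0}ᶜ) volume ac
    refine ⟨(ν.restrict {0}ᶜ).rnDeriv volume, mf, hf.symm, ?_⟩
    intro c s hc hs
    set f := (ν.restrict {0}ᶜ).rnDeriv volume with hfd
    set T := {x | c ≤ |x| ∧ ENNReal.ofReal s < f x} with hT
    have mT : MeasurableSet T :=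
      (measurableSet_le measurable_const continuous_abs.measurable).inter
        (measurableSet_lt measurable_const mf)
    -- the truncated sets
    have trunc : ∀ R : ℕ, volume (T ∩ Metric.closedBall 0 R) ≤
        ENNReal.ofReal ((4 * (M * C1) * (1 + 1 / c)) ^ 2 / (c * s ^ 2)) := by
      intro R
      set TR := T ∩ Metric.closedBall (0 : ℝ) R with hTR
      have mTR : MeasurableSet TR := mT.inter Metric.isClosed_closedBall.measurableSet
      have fTR : volume TR ≠ ⊤ :=
        ((measure_mono inter_subset_right).trans_lt measure_closedBall_lt_top).ne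
      set V := (volume TR).toReal with hV
      have hV0 : 0 ≤ V := ENNReal.toReal_nonneg
      have hVe : volume TR = ENNReal.ofReal V := (ENNReal.ofReal_toReal fTR).symm
      have h1 : ENNReal.ofReal s * volume TR ≤ ν TR := by
        calc ENNReal.ofReal s * volume TR = ∫⁻ x in TR, ENNReal.ofReal s := by
              rw [lintegral_const, Measure.restrict_apply MeasurableSet.univ, univ_inter]
          _ ≤ ∫⁻ x in TR, f x := setLIntegral_mono' mTR fun x hx => hx.1.2.le
          _ = (volume.withDensity f) TR := (withDensity_apply f mTR).symm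
          _ = ν.restrict {0}ᶜ TR := by rw [hf]
          _ ≤ ν TR := Measure.restrict_apply_le _ _
      have h2 := gen c TR hc (fun x hx => hx.1.1) fTR
      have h3 : s * V ≤ (ν TR).toReal := by
        have := ENNReal.toReal_mono (measure_ne_top ν TR) h1
        rwa [ENNReal.toReal_mul, ENNReal.toReal_ofReal hs.le] at this
      rw [hVe]
      apply ENNReal.ofReal_le_ofReal
      set Q := 4 * (M * C1) * (1 + 1 / c) with hQ
      have hQ0 : 0 ≤ Q := by positivity
      have h4 : s * V ≤ Q * √(V / c) := h3.trans h2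
      rcases eq_or_lt_of_le hV0 with h5 | h5
      · rw [← h5]; positivity
      have hW : 0 < √(V / c) := Real.sqrt_pos.2 (by positivity)
      have hWW : √(V / c) * √(V / c) = V / c := Real.mul_self_sqrt (by positivity)
      -- s c W ≤ Q
      have h6 : s * c * √(V / c) ≤ Q := by
        have h7 : s * V = s * c * √(V / c) * √(V / c) := by
          rw [mul_assoc (s * c), hWW]
          field_simp
        rw [h7] at h4
        exact le_of_mul_le_mul_right h4 hW
      rw [le_div_iff₀ (by positivity)]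
      have h8 : V * (c * s ^ 2) = (s * c * √(V / c)) ^ 2 := by
        have : (s * c * √(V / c)) ^ 2 = s ^ 2 * c ^ 2 * (√(V / c) * √(V / c)) := by ring
        rw [this, hWW]
        field_simp
      rw [h8]
      exact pow_le_pow_left₀ (by positivity) h6 2
    have hun : T = ⋃ R : ℕ, T ∩ Metric.closedBall (0 : ℝ) R := by
      rw [← inter_iUnion, Metric.iUnion_closedBall_nat, inter_univ]
    rw [hun]
    have hmono : Monotone fun R : ℕ => T ∩ Metric.closedBall (0 : ℝ) R := by
      intro a b hab
      exact inter_subset_inter_right _ (Metric.closedBall_subset_closedBall (by exact_mod_cast hab))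
    rw [hmono.measure_iUnion]
    exact iSup_le trunc

end

end Pool.Agent.Results.MP_a52643_an.WeakL2Density
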